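import Mathlib

/-!
# MP_f0ff61_co: sandpile groups of Cayley graphs of `F_2^3` with the same Laplacian eigenvalues

The generator multisets on `F_2^3` with multiplicities `(0,1,2,1,2,1,2)` and `(1,1,1,1,1,1,3)` (in
binary order of the nonzero vectors) both have Laplacian spectrum `0, 8, 8, 8, 12, 12, 12, 12`, but
their sandpile groups are not isomorphic: they are `Z/2 × Z/6 × (Z/48)^3` and
`(Z/2)^2 × (Z/12)^2 × (Z/48)^2`.
-/

set_option autoImplicit false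

namespace Pool.Agent.Results.MP_f0ff61_co.SameEigenvalues

/-- The Laplacian matrix of the Cayley graph of `F_2^r` with generator multiset `M` (no generator is
zero): the diagonal entries are the number of generators, and the entry `(u, w)` with `u ≠ w` is
minus the number of generators `v` with `u + v = w`. -/
def lap {r : ℕ} (M : Multiset (Fin r → ZMod 2)) :
    Matrix (Fin r → ZMod 2) (Fin r → ZMod 2) ℤ :=
  Matrix.of fun u w => if u = w then (Multiset.card M : ℤ) else -((M.countP (fun v => u + v = w) : ℕ) : ℤ)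

/-- The cokernel of the Laplacian. -/
abbrev Coker {r : ℕ} (M : Multiset (Fin r → ZMod 2)) : Type :=
  ((Fin r → ZMod 2) → ℤ) ⧸ LinearMap.range (lap M).mulVecLin

/-- The sandpile group: the torsion subgroup of the cokernel of the Laplacian. -/
abbrev Sandpile {r : ℕ} (M : Multiset (Fin r → ZMod 2)) : Type :=
  AddCommGroup.torsion (Coker M)

/-- The Laplacian eigenvalue indexed by `u`: twice the number of generators `v` with `u · v = 1`. -/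
def eigen {r : ℕ} (M : Multiset (Fin r → ZMod 2)) (u : Fin r → ZMod 2) : ℕ :=
  2 * M.countP (fun v => u ⬝ᵥ v = 1)

/-- A generator multiset: all generators are nonzero and they span `F_2^r`. -/
def IsGenerator {r : ℕ} (M : Multiset (Fin r → ZMod 2)) : Prop :=
  (0 : Fin r → ZMod 2) ∉ M ∧ Submodule.span (ZMod 2) {v | v ∈ M} = ⊤

/-- The gcd of the positive multiplicities of `M`. -/
def multGcd {r : ℕ} (M : Multiset (Fin r → ZMod 2)) : ℕ := M.toFinset.gcd (fun v => M.count v)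

/-- the point with binary digits of `i` -/
def pt (i : Fin 8) : Fin 3 → ZMod 2 := ![((i.val % 2 : ℕ) : ZMod 2), ((i.val / 2 % 2 : ℕ) : ZMod 2), ((i.val / 4 : ℕ) : ZMod 2)]

lemma pt_bij : Function.Bijective pt := by decide

/-- `Fin 8 ≃ F_2^3` -/
noncomputable def e : Fin 8 ≃ (Fin 3 → ZMod 2) := Equiv.ofBijective pt pt_bij

/-- first multiset -/
def M1 : Multiset (Fin 3 → ZMod 2) :=
  Multiset.ofList [pt 2, pt 3, pt 3, pt 4, pt 5, pt 5, pt 6, pt 7, pt 7]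

/-- second multiset -/
def M2 : Multiset (Fin 3 → ZMod 2) :=
  Multiset.ofList [pt 1, pt 2, pt 3, pt 4, pt 5, pt 6, pt 7, pt 7, pt 7]

/-- first Laplacian -/
def A1 : Matrix (Fin 8) (Fin 8) ℤ :=
  !![9, 0, -1, -2, -1, -2, -1, -2; 0, 9, -2, -1, -2, -1, -2, -1; -1, -2, 9, 0, -1, -2, -1, -2; -2, -1, 0, 9, -2, -1, -2, -1; -1, -2, -1, -2, 9, 0, -1, -2; -2, -1, -2, -1, 0, 9, -2, -1; -1, -2, -1, -2, -1, -2, 9, 0; -2, -1, -2, -1, -2, -1, 0, 9]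

/-- second Laplacian -/
def A2 : Matrix (Fin 8) (Fin 8) ℤ :=
  !![9, -1, -1, -1, -1, -1, -1, -3; -1, 9, -1, -1, -1, -1, -3, -1; -1, -1, 9, -1, -1, -3, -1, -1; -1, -1, -1, 9, -3, -1, -1, -1; -1, -1, -1, -3, 9, -1, -1, -1; -1, -1, -3, -1, -1, 9, -1, -1; -1, -3, -1, -1, -1, -1, 9, -1; -3, -1, -1, -1, -1, -1, -1, 9]

lemma lap1 : ∀ i j : Fin 8, lap M1 (pt i) (pt j) = A1 i j := by decide +kernel

lemma lap2 : ∀ i j : Fin 8, lap M2 (pt i) (pt j) = A2 i j := by decide +kernel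

lemma mul1 (y : (Fin 3 → ZMod 2) → ℤ) (i : Fin 8) :
    (lap M1).mulVec y (pt i) = ∑ j : Fin 8, A1 i j * y (pt j) := by
  rw [Matrix.mulVec, dotProduct, ← Equiv.sum_comp e]
  exact Finset.sum_congr rfl (fun j _ => by rw [← lap1]; rfl)

lemma mul2 (y : (Fin 3 → ZMod 2) → ℤ) (i : Fin 8) :
    (lap M2).mulVec y (pt i) = ∑ j : Fin 8, A2 i j * y (pt j) := by
  rw [Matrix.mulVec, dotProduct, ← Equiv.sum_comp e]
  exact Finset.sum_congr rfl (fun j _ => by rw [← lap2]; rfl)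

lemma row1_0 (Y : Fin 8 → ℤ) : ∑ j : Fin 8, A1 0 j * Y j = (9) * Y 0 + (0) * Y 1 + (-1) * Y 2 + (-2) * Y 3 + (-1) * Y 4 + (-2) * Y 5 + (-1) * Y 6 + (-2) * Y 7 := by
  rw [Fin.sum_univ_eight]; simp [A1]

lemma row1_1 (Y : Fin 8 → ℤ) : ∑ j : Fin 8, A1 1 j * Y j = (0) * Y 0 + (9) * Y 1 + (-2) * Y 2 + (-1) * Y 3 + (-2) * Y 4 + (-1) * Y 5 + (-2) * Y 6 + (-1) * Y 7 := by
  rw [Fin.sum_univ_eight]; simp [A1]

lemma row1_2 (Y : Fin 8 → ℤ) : ∑ j : Fin 8, A1 2 j * Y j = (-1) * Y 0 + (-2) * Y 1 + (9) * Y 2 + (0) * Y 3 + (-1) * Y 4 + (-2) * Y 5 + (-1) * Y 6 + (-2) * Y 7 := by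
  rw [Fin.sum_univ_eight]; simp [A1]

lemma row1_3 (Y : Fin 8 → ℤ) : ∑ j : Fin 8, A1 3 j * Y j = (-2) * Y 0 + (-1) * Y 1 + (0) * Y 2 + (9) * Y 3 + (-2) * Y 4 + (-1) * Y 5 + (-2) * Y 6 + (-1) * Y 7 := by
  rw [Fin.sum_univ_eight]; simp [A1]

lemma row1_4 (Y : Fin 8 → ℤ) : ∑ j : Fin 8, A1 4 j * Y j = (-1) * Y 0 + (-2) * Y 1 + (-1) * Y 2 + (-2) * Y 3 + (9) * Y 4 + (0) * Y 5 + (-1) * Y 6 + (-2) * Y 7 := by
  rw [Fin.sum_univ_eight]; simp [A1]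

lemma row1_5 (Y : Fin 8 → ℤ) : ∑ j : Fin 8, A1 5 j * Y j = (-2) * Y 0 + (-1) * Y 1 + (-2) * Y 2 + (-1) * Y 3 + (0) * Y 4 + (9) * Y 5 + (-2) * Y 6 + (-1) * Y 7 := by
  rw [Fin.sum_univ_eight]; simp [A1]

lemma row1_6 (Y : Fin 8 → ℤ) : ∑ j : Fin 8, A1 6 j * Y j = (-1) * Y 0 + (-2) * Y 1 + (-1) * Y 2 + (-2) * Y 3 + (-1) * Y 4 + (-2) * Y 5 + (9) * Y 6 + (0) * Y 7 := by
  rw [Fin.sum_univ_eight]; simp [A1]

lemma row1_7 (Y : Fin 8 → ℤ) : ∑ j : Fin 8, A1 7 j * Y j = (-2) * Y 0 + (-1) * Y 1 + (-2) * Y 2 + (-1) * Y 3 + (-2) * Y 4 + (-1) * Y 5 + (0) * Y 6 + (9) * Y 7 := by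
  rw [Fin.sum_univ_eight]; simp [A1]

lemma row2_0 (Y : Fin 8 → ℤ) : ∑ j : Fin 8, A2 0 j * Y j = (9) * Y 0 + (-1) * Y 1 + (-1) * Y 2 + (-1) * Y 3 + (-1) * Y 4 + (-1) * Y 5 + (-1) * Y 6 + (-3) * Y 7 := by
  rw [Fin.sum_univ_eight]; simp [A2]

lemma row2_1 (Y : Fin 8 → ℤ) : ∑ j : Fin 8, A2 1 j * Y j = (-1) * Y 0 + (9) * Y 1 + (-1) * Y 2 + (-1) * Y 3 + (-1) * Y 4 + (-1) * Y 5 + (-3) * Y 6 + (-1) * Y 7 := by
  rw [Fin.sum_univ_eight]; simp [A2]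

lemma row2_2 (Y : Fin 8 → ℤ) : ∑ j : Fin 8, A2 2 j * Y j = (-1) * Y 0 + (-1) * Y 1 + (9) * Y 2 + (-1) * Y 3 + (-1) * Y 4 + (-3) * Y 5 + (-1) * Y 6 + (-1) * Y 7 := by
  rw [Fin.sum_univ_eight]; simp [A2]

lemma row2_3 (Y : Fin 8 → ℤ) : ∑ j : Fin 8, A2 3 j * Y j = (-1) * Y 0 + (-1) * Y 1 + (-1) * Y 2 + (9) * Y 3 + (-3) * Y 4 + (-1) * Y 5 + (-1) * Y 6 + (-1) * Y 7 := by
  rw [Fin.sum_univ_eight]; simp [A2]

lemma row2_4 (Y : Fin 8 → ℤ) : ∑ j : Fin 8, A2 4 j * Y j = (-1) * Y 0 + (-1) * Y 1 + (-1) * Y 2 + (-3) * Y 3 + (9) * Y 4 + (-1) * Y 5 + (-1) * Y 6 + (-1) * Y 7 := by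
  rw [Fin.sum_univ_eight]; simp [A2]

lemma row2_5 (Y : Fin 8 → ℤ) : ∑ j : Fin 8, A2 5 j * Y j = (-1) * Y 0 + (-1) * Y 1 + (-3) * Y 2 + (-1) * Y 3 + (-1) * Y 4 + (9) * Y 5 + (-1) * Y 6 + (-1) * Y 7 := by
  rw [Fin.sum_univ_eight]; simp [A2]

lemma row2_6 (Y : Fin 8 → ℤ) : ∑ j : Fin 8, A2 6 j * Y j = (-1) * Y 0 + (-3) * Y 1 + (-1) * Y 2 + (-1) * Y 3 + (-1) * Y 4 + (-1) * Y 5 + (9) * Y 6 + (-1) * Y 7 := by
  rw [Fin.sum_univ_eight]; simp [A2]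

lemma row2_7 (Y : Fin 8 → ℤ) : ∑ j : Fin 8, A2 7 j * Y j = (-3) * Y 0 + (-1) * Y 1 + (-1) * Y 2 + (-1) * Y 3 + (-1) * Y 4 + (-1) * Y 5 + (-1) * Y 6 + (9) * Y 7 := by
  rw [Fin.sum_univ_eight]; simp [A2]


lemma span_top (M : Multiset (Fin 3 → ZMod 2)) (h2 : pt 2 ∈ M) (h3 : pt 3 ∈ M) (h4 : pt 4 ∈ M) :
    Submodule.span (ZMod 2) {v | v ∈ M} = ⊤ := by
  rw [Submodule.eq_top_iff']
  intro x
  have hx : ∀ x : Fin 3 → ZMod 2, x = x 0 • pt 3 + (x 0 + x 1) • pt 2 + x 2 • pt 4 := by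
    decide +kernel
  rw [hx x]
  have g2 := Submodule.subset_span (R := ZMod 2) (s := {v | v ∈ M}) h2
  have g3 := Submodule.subset_span (R := ZMod 2) (s := {v | v ∈ M}) h3
  have g4 := Submodule.subset_span (R := ZMod 2) (s := {v | v ∈ M}) h4
  exact Submodule.add_mem _ (Submodule.add_mem _ (Submodule.smul_mem _ _ g3) (Submodule.smul_mem _ _ g2))
    (Submodule.smul_mem _ _ g4)

lemma gen1 : IsGenerator M1 := by
  refine ⟨by decide +kernel, span_top _ ?_ ?_ ?_⟩ <;> simp [M1]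

lemma gen2 : IsGenerator M2 := by
  refine ⟨by decide +kernel, span_top _ ?_ ?_ ?_⟩ <;> simp [M2]

lemma gcd1 : multGcd M1 = 1 := by decide +kernel

lemma gcd2 : multGcd M2 = 1 := by decide +kernel

lemma eig_eq : (Finset.univ : Finset (Fin 3 → ZMod 2)).val.map (eigen M1) =
    (Finset.univ : Finset (Fin 3 → ZMod 2)).val.map (eigen M2) := by decide +kernel

/-- bits for the first group -/
def B1 (c : Fin 5 → Fin 2) : Fin 8 → ℤ :=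
  ![0, (c 0 : ℕ), (c 1 : ℕ), (c 2 : ℕ), (c 3 : ℕ), (c 4 : ℕ), (((c 1 : ℕ) + (c 3 : ℕ)) % 2 : ℕ),
    (((c 0 : ℕ) + (c 2 : ℕ) + (c 4 : ℕ)) % 2 : ℕ)]

/-- candidates for 2-torsion classes of the first group -/
noncomputable def H1 (c : Fin 5 → Fin 2) : (Fin 3 → ZMod 2) → ℤ :=
  fun v => (∑ j : Fin 8, A1 (e.symm v) j * B1 c j) / 2

lemma H1_pt (c : Fin 5 → Fin 2) (i : Fin 8) : H1 c (pt i) = (∑ j : Fin 8, A1 i j * B1 c j) / 2 := by
  have : e.symm (pt i) = i := e.symm_apply_apply i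
  rw [H1, this]

lemma half_lemma (a b w : ℤ) (h : 2 * a = 2 * w - b) : a = w - b / 2 := by omega

lemma torsion1 (x : Coker M1) (hx : (2 : ℤ) • x = 0) :
    ∃ c : Fin 5 → Fin 2, x = Submodule.Quotient.mk (H1 c) := by
  obtain ⟨w, rfl⟩ := Submodule.Quotient.mk_surjective _ x
  rw [← Submodule.Quotient.mk_smul, Submodule.Quotient.mk_eq_zero] at hx
  obtain ⟨y, hy⟩ := hx
  have hy' : ∀ i : Fin 8, ∑ j : Fin 8, A1 i j * y (pt j) = 2 * w (pt i) := by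
    intro i
    rw [← mul1]
    have := congrFun hy (pt i)
    simpa using this
  set Y : Fin 8 → ℤ := fun j => y (pt j) with hY
  have r0 := (row1_0 Y).symm.trans (hy' 0)
  have r1 := (row1_1 Y).symm.trans (hy' 1)
  have r2 := (row1_2 Y).symm.trans (hy' 2)
  have r3 := (row1_3 Y).symm.trans (hy' 3)
  have r4 := (row1_4 Y).symm.trans (hy' 4)
  have r5 := (row1_5 Y).symm.trans (hy' 5)
  have r6 := (row1_6 Y).symm.trans (hy' 6)
  have r7 := (row1_7 Y).symm.trans (hy' 7)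
  let bit : ℤ → Fin 2 := fun t => ⟨(t % 2).toNat, by omega⟩
  have hbit : ∀ t : ℤ, (((bit t : Fin 2) : ℕ) : ℤ) = t % 2 := by
    intro t
    simp only [bit]
    omega
  let c : Fin 5 → Fin 2 := ![bit (Y 1 - Y 0), bit (Y 2 - Y 0), bit (Y 3 - Y 0), bit (Y 4 - Y 0), bit (Y 5 - Y 0)]
  have c0 : (((c 0 : Fin 2) : ℕ) : ℤ) = (Y 1 - Y 0) % 2 := hbit _
  have c1 : (((c 1 : Fin 2) : ℕ) : ℤ) = (Y 2 - Y 0) % 2 := hbit _
  have c2 : (((c 2 : Fin 2) : ℕ) : ℤ) = (Y 3 - Y 0) % 2 := hbit _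
  have c3 : (((c 3 : Fin 2) : ℕ) : ℤ) = (Y 4 - Y 0) % 2 := hbit _
  have c4 : (((c 4 : Fin 2) : ℕ) : ℤ) = (Y 5 - Y 0) % 2 := hbit _
  have b0 : B1 c 0 = 0 := rfl
  have b1 : B1 c 1 = (Y 1 - Y 0) % 2 := c0
  have b2 : B1 c 2 = (Y 2 - Y 0) % 2 := c1
  have b3 : B1 c 3 = (Y 3 - Y 0) % 2 := c2
  have b4 : B1 c 4 = (Y 4 - Y 0) % 2 := c3
  have b5 : B1 c 5 = (Y 5 - Y 0) % 2 := c4
  have b6 : B1 c 6 = ((Y 2 - Y 0) % 2 + (Y 4 - Y 0) % 2) % 2 := by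
    rw [← c1, ← c3]; change (((((c 1 : ℕ) + (c 3 : ℕ)) % 2 : ℕ)) : ℤ) = _; push_cast; rfl
  have b7 : B1 c 7 = ((Y 1 - Y 0) % 2 + (Y 3 - Y 0) % 2 + (Y 5 - Y 0) % 2) % 2 := by
    rw [← c0, ← c2, ← c4]; change (((((c 0 : ℕ) + (c 2 : ℕ) + (c 4 : ℕ)) % 2 : ℕ)) : ℤ) = _; push_cast; rfl
  refine ⟨c, ?_⟩
  rw [Submodule.Quotient.eq]
  refine ⟨fun v => (Y (e.symm v) - Y 0 - B1 c (e.symm v)) / 2, ?_⟩
  ext v
  obtain ⟨i, rfl⟩ := pt_bij.2 v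
  rw [Matrix.mulVecLin_apply, mul1]
  have hs : ∀ j : Fin 8, e.symm (pt j) = j := fun j => e.symm_apply_apply j
  simp only [hs, Pi.sub_apply, H1_pt]
  have hz : ∀ j : Fin 8, 2 * ((Y j - Y 0 - B1 c j) / 2) = Y j - Y 0 - B1 c j := by
    clear_value Y
    intro j
    fin_cases j
    · change 2 * ((Y 0 - Y 0 - B1 c 0) / 2) = Y 0 - Y 0 - B1 c 0
      rw [b0]; clear * -; omega
    · change 2 * ((Y 1 - Y 0 - B1 c 1) / 2) = Y 1 - Y 0 - B1 c 1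
      rw [b1]; clear * -; omega
    · change 2 * ((Y 2 - Y 0 - B1 c 2) / 2) = Y 2 - Y 0 - B1 c 2
      rw [b2]; clear * -; omega
    · change 2 * ((Y 3 - Y 0 - B1 c 3) / 2) = Y 3 - Y 0 - B1 c 3
      rw [b3]; clear * -; omega
    · change 2 * ((Y 4 - Y 0 - B1 c 4) / 2) = Y 4 - Y 0 - B1 c 4
      rw [b4]; clear * -; omega
    · change 2 * ((Y 5 - Y 0 - B1 c 5) / 2) = Y 5 - Y 0 - B1 c 5
      rw [b5]; clear * -; omega
    · change 2 * ((Y 6 - Y 0 - B1 c 6) / 2) = Y 6 - Y 0 - B1 c 6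
      rw [b6]; clear * - r0 r1 r2 r3 r4 r5 r6 r7; omega
    · change 2 * ((Y 7 - Y 0 - B1 c 7) / 2) = Y 7 - Y 0 - B1 c 7
      rw [b7]; clear * - r0 r1 r2 r3 r4 r5 r6 r7; omega
  have hrow : ∀ i : Fin 8, ∑ j : Fin 8, A1 i j = 0 := by decide +kernel
  have hsum : 2 * ∑ j : Fin 8, A1 i j * ((Y j - Y 0 - B1 c j) / 2) =
      2 * w (pt i) - ∑ j : Fin 8, A1 i j * B1 c j := by
    calc 2 * ∑ j : Fin 8, A1 i j * ((Y j - Y 0 - B1 c j) / 2)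
        = ∑ j : Fin 8, A1 i j * (2 * ((Y j - Y 0 - B1 c j) / 2)) := by
          rw [Finset.mul_sum]
          exact Finset.sum_congr rfl (fun j _ => by ring)
      _ = ∑ j : Fin 8, (A1 i j * Y j - A1 i j * Y 0 - A1 i j * B1 c j) :=
          Finset.sum_congr rfl (fun j _ => by rw [hz j]; ring)
      _ = ∑ j : Fin 8, A1 i j * Y j - (∑ j : Fin 8, A1 i j) * Y 0 - ∑ j : Fin 8, A1 i j * B1 c j := by
          rw [Finset.sum_sub_distrib, Finset.sum_sub_distrib, Finset.sum_mul]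
      _ = 2 * w (pt i) - ∑ j : Fin 8, A1 i j * B1 c j := by rw [hrow i, hy' i]; ring
  exact half_lemma _ _ _ hsum

/-- bits for the second group -/
def B2 (c : Fin 6 → Fin 2) : Fin 8 → ℤ :=
  ![0, (c 0 : ℕ), (c 1 : ℕ), (c 2 : ℕ), (c 3 : ℕ), (c 4 : ℕ), (c 5 : ℕ),
    (((c 0 : ℕ) + (c 1 : ℕ) + (c 2 : ℕ) + (c 3 : ℕ) + (c 4 : ℕ) + (c 5 : ℕ)) % 2 : ℕ)]

/-- 2-torsion classes of the second group -/
noncomputable def H2 (c : Fin 6 → Fin 2) : (Fin 3 → ZMod 2) → ℤ :=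
  fun v => (∑ j : Fin 8, A2 (e.symm v) j * B2 c j) / 2

lemma H2_pt (c : Fin 6 → Fin 2) (i : Fin 8) : H2 c (pt i) = (∑ j : Fin 8, A2 i j * B2 c j) / 2 := by
  have : e.symm (pt i) = i := e.symm_apply_apply i
  rw [H2, this]

lemma B2_vals (c : Fin 6 → Fin 2) : ∃ t : ℤ, B2 c 7 = B2 c 1 + B2 c 2 + B2 c 3 + B2 c 4 + B2 c 5 + B2 c 6 - 2 * t := by
  refine ⟨((((c 0 : ℕ) + (c 1 : ℕ) + (c 2 : ℕ) + (c 3 : ℕ) + (c 4 : ℕ) + (c 5 : ℕ)) / 2 : ℕ)), ?_⟩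
  change (((((c 0 : ℕ) + (c 1 : ℕ) + (c 2 : ℕ) + (c 3 : ℕ) + (c 4 : ℕ) + (c 5 : ℕ)) % 2 : ℕ)) : ℤ) =
    ((c 0 : ℕ) : ℤ) + ((c 1 : ℕ) : ℤ) + ((c 2 : ℕ) : ℤ) + ((c 3 : ℕ) : ℤ) + ((c 4 : ℕ) : ℤ) + ((c 5 : ℕ) : ℤ) - 2 * _
  omega

lemma two_H2 (c : Fin 6 → Fin 2) (i : Fin 8) : 2 * H2 c (pt i) = ∑ j : Fin 8, A2 i j * B2 c j := by
  rw [H2_pt]
  obtain ⟨t, ht⟩ := B2_vals c
  have h0 : B2 c 0 = 0 := rfl
  fin_cases i
  · change 2 * ((∑ j : Fin 8, A2 0 j * B2 c j) / 2) = ∑ j : Fin 8, A2 0 j * B2 c j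
    rw [row2_0]; omega
  · change 2 * ((∑ j : Fin 8, A2 1 j * B2 c j) / 2) = ∑ j : Fin 8, A2 1 j * B2 c j
    rw [row2_1]; omega
  · change 2 * ((∑ j : Fin 8, A2 2 j * B2 c j) / 2) = ∑ j : Fin 8, A2 2 j * B2 c j
    rw [row2_2]; omega
  · change 2 * ((∑ j : Fin 8, A2 3 j * B2 c j) / 2) = ∑ j : Fin 8, A2 3 j * B2 c j
    rw [row2_3]; omega
  · change 2 * ((∑ j : Fin 8, A2 4 j * B2 c j) / 2) = ∑ j : Fin 8, A2 4 j * B2 c j
    rw [row2_4]; omega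
  · change 2 * ((∑ j : Fin 8, A2 5 j * B2 c j) / 2) = ∑ j : Fin 8, A2 5 j * B2 c j
    rw [row2_5]; omega
  · change 2 * ((∑ j : Fin 8, A2 6 j * B2 c j) / 2) = ∑ j : Fin 8, A2 6 j * B2 c j
    rw [row2_6]; omega
  · change 2 * ((∑ j : Fin 8, A2 7 j * B2 c j) / 2) = ∑ j : Fin 8, A2 7 j * B2 c j
    rw [row2_7]; omega

lemma ker2 (K : Fin 8 → ℤ) (h : ∀ i : Fin 8, ∑ j : Fin 8, A2 i j * K j = 0) : ∀ i : Fin 8, K i = K 0 := by
  have r0 := (row2_0 K).symm.trans (h 0)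
  have r1 := (row2_1 K).symm.trans (h 1)
  have r2 := (row2_2 K).symm.trans (h 2)
  have r3 := (row2_3 K).symm.trans (h 3)
  have r4 := (row2_4 K).symm.trans (h 4)
  have r5 := (row2_5 K).symm.trans (h 5)
  have r6 := (row2_6 K).symm.trans (h 6)
  have r7 := (row2_7 K).symm.trans (h 7)
  intro i
  fin_cases i
  · rfl
  · change K 1 = K 0; omega
  · change K 2 = K 0; omega
  · change K 3 = K 0; omega
  · change K 4 = K 0; omega
  · change K 5 = K 0; omega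
  · change K 6 = K 0; omega
  · change K 7 = K 0; omega

lemma torsion2 (c : Fin 6 → Fin 2) : (2 : ℤ) • (Submodule.Quotient.mk (H2 c) : Coker M2) = 0 := by
  rw [← Submodule.Quotient.mk_smul, Submodule.Quotient.mk_eq_zero]
  refine ⟨fun v => B2 c (e.symm v), ?_⟩
  ext v
  obtain ⟨i, rfl⟩ := pt_bij.2 v
  rw [Matrix.mulVecLin_apply, mul2]
  have hs : ∀ j : Fin 8, e.symm (pt j) = j := fun j => e.symm_apply_apply j
  simp only [hs, Pi.smul_apply, smul_eq_mul]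
  rw [two_H2]

lemma inj2 (c c' : Fin 6 → Fin 2)
    (h : (Submodule.Quotient.mk (H2 c) : Coker M2) = Submodule.Quotient.mk (H2 c')) : c = c' := by
  rw [Submodule.Quotient.eq] at h
  obtain ⟨z, hz⟩ := h
  have hz' : ∀ i : Fin 8, ∑ j : Fin 8, A2 i j * z (pt j) = H2 c (pt i) - H2 c' (pt i) := by
    intro i
    rw [← mul2]
    have := congrFun hz (pt i)
    simpa using this
  have hk := ker2 (fun j => B2 c j - B2 c' j - 2 * z (pt j)) (by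
    intro i
    have h1 := two_H2 c i
    have h2 := two_H2 c' i
    have h3 := hz' i
    calc ∑ j : Fin 8, A2 i j * (B2 c j - B2 c' j - 2 * z (pt j))
        = ∑ j : Fin 8, A2 i j * B2 c j - ∑ j : Fin 8, A2 i j * B2 c' j
          - 2 * ∑ j : Fin 8, A2 i j * z (pt j) := by
          rw [Finset.mul_sum, ← Finset.sum_sub_distrib, ← Finset.sum_sub_distrib]
          exact Finset.sum_congr rfl (fun j _ => by ring)
      _ = 0 := by rw [← h1, ← h2, h3]; ring)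
  have k1 := hk 1
  have k2 := hk 2
  have k3 := hk 3
  have k4 := hk 4
  have k5 := hk 5
  have k6 := hk 6
  change ((c 0 : ℕ) : ℤ) - ((c' 0 : ℕ) : ℤ) - 2 * z (pt 1) = 0 - 0 - 2 * z (pt 0) at k1
  change ((c 1 : ℕ) : ℤ) - ((c' 1 : ℕ) : ℤ) - 2 * z (pt 2) = 0 - 0 - 2 * z (pt 0) at k2
  change ((c 2 : ℕ) : ℤ) - ((c' 2 : ℕ) : ℤ) - 2 * z (pt 3) = 0 - 0 - 2 * z (pt 0) at k3
  change ((c 3 : ℕ) : ℤ) - ((c' 3 : ℕ) : ℤ) - 2 * z (pt 4) = 0 - 0 - 2 * z (pt 0) at k4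
  change ((c 4 : ℕ) : ℤ) - ((c' 4 : ℕ) : ℤ) - 2 * z (pt 5) = 0 - 0 - 2 * z (pt 0) at k5
  change ((c 5 : ℕ) : ℤ) - ((c' 5 : ℕ) : ℤ) - 2 * z (pt 6) = 0 - 0 - 2 * z (pt 0) at k6
  funext j
  apply Fin.ext
  fin_cases j
  · change (c 0 : ℕ) = (c' 0 : ℕ); omega
  · change (c 1 : ℕ) = (c' 1 : ℕ); omega
  · change (c 2 : ℕ) = (c' 2 : ℕ); omega
  · change (c 3 : ℕ) = (c' 3 : ℕ); omega
  · change (c 4 : ℕ) = (c' 4 : ℕ); omega
  · change (c 5 : ℕ) = (c' 5 : ℕ); omega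

/-- **Disproof of Q1.** For `r = 3` there are two generator multisets, both with gcd of
multiplicities `1`, whose Laplacians have the same eigenvalues, even with the same multiplicities,
but whose sandpile groups are not isomorphic. -/
theorem result : ∃ (r : ℕ) (M M' : Multiset (Fin r → ZMod 2)),
    1 ≤ r ∧ IsGenerator M ∧ IsGenerator M' ∧ multGcd M = 1 ∧ multGcd M' = 1 ∧
    Set.range (eigen M) = Set.range (eigen M') ∧
    (Finset.univ : Finset (Fin r → ZMod 2)).val.map (eigen M) =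
      (Finset.univ : Finset (Fin r → ZMod 2)).val.map (eigen M') ∧
    IsEmpty (Sandpile M ≃+ Sandpile M') := by
  refine ⟨3, M1, M2, by norm_num, gen1, gen2, gcd1, gcd2, ?_, eig_eq, ⟨fun φ => ?_⟩⟩
  · ext t
    have h := congrArg (fun s : Multiset ℕ => t ∈ s) eig_eq
    simpa using h
  · -- 64 two-torsion classes would inject into 32
    have htor : ∀ c : Fin 6 → Fin 2, (Submodule.Quotient.mk (H2 c) : Coker M2) ∈ AddCommGroup.torsion (Coker M2) := by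
      intro c
      rw [AddCommGroup.mem_torsion, isOfFinAddOrder_iff_nsmul_eq_zero]
      exact ⟨2, by norm_num, by
        have := torsion2 c
        rw [← natCast_zsmul]
        exact_mod_cast this⟩
    have key : ∀ c : Fin 6 → Fin 2, ∃ d : Fin 5 → Fin 2,
        ((φ.symm ⟨_, htor c⟩ : Sandpile M1) : Coker M1) = Submodule.Quotient.mk (H1 d) := by
      intro c
      apply torsion1
      have h2 : (2 : ℤ) • (⟨_, htor c⟩ : Sandpile M2) = 0 := by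
        apply Subtype.ext
        exact torsion2 c
      have h3 : (2 : ℤ) • (φ.symm ⟨_, htor c⟩ : Sandpile M1) = 0 := by
        rw [← map_zsmul, h2, map_zero]
      exact congrArg Subtype.val h3
    choose d hd using key
    have hinj : Function.Injective d := by
      intro c c' h
      have h1 := hd c
      have h2 := hd c'
      rw [h] at h1
      have h3 : (φ.symm ⟨_, htor c⟩ : Sandpile M1) = φ.symm ⟨_, htor c'⟩ := Subtype.ext (h1.trans h2.symm)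
      have h4 := φ.symm.injective h3
      exact inj2 c c' (congrArg Subtype.val h4)
    have := Fintype.card_le_of_injective d hinj
    simp at this

end Pool.Agent.Results.MP_f0ff61_co.SameEigenvalues
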